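import Pool.Agent.H391Z.CutB

set_option autoImplicit false
open Filter Topology

namespace Pool.Agent.Results.MP_bb6540_pr.ADihedralNoCutoff

open Pool.Agent.H391Z.Cut

/-- There are finite nilpotent groups `G n` of diverging order and `k n` with
`1 ≪ log k ≪ log |G|` and `k ≫ log |A|` such that the entropic time `t_0(k, |A|)` exists and, at
every constant multiple of `max {t_0(k, |A|), log_k |G|}`, the total variation distance tends to
one uniformly in the generators; in particular there is no cutoff whp at that time. -/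
theorem result : ∃ (G : ℕ → Type) (_ : ∀ n, Group (G n)) (_ : ∀ n, Fintype (G n)) (k : ℕ → ℕ),
    (∀ n, Group.IsNilpotent (G n)) ∧
    Tendsto (fun n => Fintype.card (G n)) atTop atTop ∧
    Tendsto (fun n => Real.log (k n)) atTop atTop ∧
    Tendsto (fun n => Real.log (k n) / Real.log (Fintype.card (G n))) atTop (𝓝 0) ∧
    Tendsto (fun n => Real.log (Nat.card (Abelianization (G n))) / k n) atTop (𝓝 0) ∧
    (∀ n, ∃ t, IsEntropicTime (k n) (Nat.card (Abelianization (G n))) t) ∧
    ∀ t₀ : ℕ → ℝ, (∀ n, IsEntropicTime (k n) (Nat.card (Abelianization (G n))) (t₀ n)) →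
      (∀ C : ℝ, 0 < C → ∀ δ : ℝ, 0 < δ → ∀ᶠ n in atTop, ∀ Z : Fin (k n) → G n,
        |tvDist Z (C * max (t₀ n) (Real.logb (k n) (Fintype.card (G n)))) - 1| ≤ δ) ∧
      ¬ CutoffWhp G k fun n => max (t₀ n) (Real.logb (k n) (Fintype.card (G n))) := by
  have hk : Tendsto (fun n : ℕ => ((n + 4 : ℕ) : ℝ)) atTop atTop :=
    tendsto_natCast_atTop_atTop.comp (tendsto_add_atTop_nat 4)
  have hcard : ∀ n : ℕ, Fintype.card (DihedralGroup (2 ^ (10 * (n + 4) ^ 2))) =
      2 ^ (10 * (n + 4) ^ 2 + 1) := fun n => by rw [DihedralGroup.card, pow_succ 2, mul_comm]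
  have hlog : ∀ n : ℕ, Real.log (Fintype.card (DihedralGroup (2 ^ (10 * (n + 4) ^ 2)))) =
      (10 * ((n + 4 : ℕ) : ℝ) ^ 2 + 1) * Real.log 2 := fun n => by
    rw [hcard]; push_cast; rw [Real.log_pow]; push_cast; ring
  have hl2 : 1 / 2 < Real.log 2 := by have := Real.log_two_gt_d9; linarith
  have hA : ∀ n : ℕ, 1 ≤ Nat.card (Abelianization (DihedralGroup (2 ^ (10 * (n + 4) ^ 2)))) :=
    fun n => Nat.card_pos
  refine ⟨fun n => DihedralGroup (2 ^ (10 * (n + 4) ^ 2)), inferInstance, inferInstance,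
    fun n => n + 4, fun n => ?_, ?_, Real.tendsto_log_atTop.comp hk, ?_, ?_,
    fun n => exists_entropicTime (Nat.le_add_left 4 n) (hA n) (card_ab_le _), fun t₀ ht₀ => ?_⟩
  · have : Fact (Nat.Prime 2) := ⟨Nat.prime_two⟩
    refine IsPGroup.isNilpotent (p := 2) (IsPGroup.of_card (n := 10 * (n + 4) ^ 2 + 1) ?_)
    rw [Nat.card_eq_fintype_card, hcard]
  · refine tendsto_atTop_mono (fun n => ?_) tendsto_id
    rw [hcard]
    have := @Nat.lt_two_pow_self (10 * (n + 4) ^ 2 + 1)
    have h2 : n + 4 ≤ (n + 4) ^ 2 := Nat.le_self_pow (by omega) _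
    simp only [id]
    omega
  · refine squeeze_zero (fun n => ?_) (fun n => ?_) (tendsto_inv_atTop_zero.comp hk)
    · exact div_nonneg (Real.log_natCast_nonneg _) (Real.log_natCast_nonneg _)
    · simp only [Function.comp]
      rw [hlog]
      have h0 : (0 : ℝ) < ((n + 4 : ℕ) : ℝ) := by positivity
      have h1 := Real.log_le_sub_one_of_pos h0
      rw [inv_eq_one_div, div_le_div_iff₀ (by positivity) h0]
      nlinarith
  · refine squeeze_zero (fun n => ?_) (fun n => ?_) (tendsto_const_nhds.div_atTop hk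
      (a := Real.log 4))
    · exact div_nonneg (Real.log_natCast_nonneg _) (Nat.cast_nonneg _)
    · gcongr
      · exact_mod_cast hA n
      · exact_mod_cast card_ab_le _
  · have key : ∀ C : ℝ, 0 < C → ∀ δ : ℝ, 0 < δ → ∀ᶠ n in atTop,
        ∀ Z : Fin (n + 4) → DihedralGroup (2 ^ (10 * (n + 4) ^ 2)),
        |tvDist Z (C * max (t₀ n) (Real.logb ((n + 4 : ℕ) : ℝ)
          (Fintype.card (DihedralGroup (2 ^ (10 * (n + 4) ^ 2)))))) - 1| ≤ δ := by
      intro C hC δ hδ
      filter_upwards [(tendsto_const_nhds.div_atTop hk (a := C + 1)).eventually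
        (ge_mem_nhds hδ)] with n hn Z
      have h4 : (4 : ℝ) ≤ ((n + 4 : ℕ) : ℝ) := by push_cast; linarith [Nat.cast_nonneg (α := ℝ) n]
      have ht : 0 ≤ C * max (t₀ n) (Real.logb ((n + 4 : ℕ) : ℝ)
          (Fintype.card (DihedralGroup (2 ^ (10 * (n + 4) ^ 2))))) :=
        mul_nonneg hC.le (le_max_of_le_left (ht₀ n).1)
      have h1 := tv_dihedral (k := n + 4) (by omega) Z (C := C) ht (by
        refine mul_le_mul_of_nonneg_left (max_le ?_ ?_) hC.le
        · have := entropicTime_le (k := n + 4) (by omega) (hA n) (card_ab_le _) (ht₀ n)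
          nlinarith
        · have h5 : Real.log 2 ≤ Real.log ((n + 4 : ℕ) : ℝ) :=
            Real.log_le_log (by norm_num) (by linarith)
          rw [Real.logb, hlog, div_le_iff₀ (by linarith)]
          gcongr)
      have h2 := tvDist_le_one (k := n + 4) (by omega) Z ht
      rw [abs_le]
      constructor <;> linarith
    refine ⟨key, fun h => ?_⟩
    have h1 := (h (1 / 2) (by norm_num) (by norm_num)).1 (1 / 2) (by norm_num)
    have h2 := (key (1 + 1 / 2) (by norm_num) (1 / 4) (by norm_num)).and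
      (h1.eventually (gt_mem_nhds zero_lt_one))
    obtain ⟨n, hn, hn'⟩ := h2.exists
    refine absurd hn' (not_lt.mpr (le_of_eq ?_))
    unfold probZ
    rw [Nat.card_congr (Equiv.subtypeUnivEquiv fun Z => ?_), Nat.card_eq_fintype_card,
      Fintype.card_fun, Fintype.card_fin]
    · push_cast
      exact (div_self (by positivity)).symm
    · have := abs_le.mp (hn Z)
      refine lt_of_lt_of_le ?_ (le_abs_self _)
      linarith [this.1]

end Pool.Agent.Results.MP_bb6540_pr.ADihedralNoCutoff
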